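import Pool.Agent.Helper47.Gomoku.Sem
import Pool.Agent.Helper93.Gomoku.Sym

set_option autoImplicit false

namespace Pool.Agent.Gomoku

open Finset

/-! # Bitboards

A board is a natural number below `2^1024`; bit `i` stands for the cell
`(off.1 + i % 32, off.2 + i / 32)`, where `off : Cell` is the real position of the lower left corner.
A set of windows is a natural number below `2^4096`; bit `1024 d + s` stands for the window that
starts at the board cell `s` and has index step `delta d` (1, 32, 33, 31). -/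

/-- index steps of the four directions -/
def delta : ℕ → ℕ
  | 0 => 1
  | 1 => 32
  | 2 => 33
  | _ => 31

def cellOf (off : Cell) (i : ℕ) : Cell := (off.1 + ((i % 32 : ℕ) : ℤ), off.2 + ((i / 32 : ℕ) : ℤ))

/-- the set of cells of a bitboard -/
def dec (off : Cell) (n : ℕ) : Finset Cell :=
  ((Finset.range 1024).filter fun i => n.testBit i = true).image (cellOf off)

/-- the window with number `k` -/
def winK (off : Cell) (k : ℕ) : Finset Cell :=
  (Finset.range 5).image fun j => cellOf off (k % 1024 + j * delta (k / 1024))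

/-- numbers of windows that lie in the board (no wrapping) -/
def VM : ℕ := 0xfffffff0fffffff0fffffff0fffffff0fffffff0fffffff0fffffff0fffffff0fffffff0fffffff0fffffff0fffffff0fffffff0fffffff0fffffff0fffffff0fffffff0fffffff0fffffff0fffffff0fffffff0fffffff0fffffff0fffffff0fffffff0fffffff0fffffff0fffffff0000000000000000000000000000000000fffffff0fffffff0fffffff0fffffff0fffffff0fffffff0fffffff0fffffff0fffffff0fffffff0fffffff0fffffff0fffffff0fffffff0fffffff0fffffff0fffffff0fffffff0fffffff0fffffff0fffffff0fffffff0fffffff0fffffff0fffffff0fffffff0fffffff0fffffff00000000000000000000000000000000ffffffffffffffffffffffffffffffffffffffffffffffffffffffffffffffffffffffffffffffffffffffffffffffffffffffffffffffffffffffffffffffffffffffffffffffffffffffffffffffffffffffffffffffffffffffffffffffffffffffffffffffffffffffffffffffff0fffffff0fffffff0fffffff0fffffff0fffffff0fffffff0fffffff0fffffff0fffffff0fffffff0fffffff0fffffff0fffffff0fffffff0fffffff0fffffff0fffffff0fffffff0fffffff0fffffff0fffffff0fffffff0fffffff0fffffff0fffffff0fffffff0fffffff0fffffff0fffffff0fffffff0fffffff0fffffff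

/-- windows through the cell 132 = (4, 4) -/
def TM : ℕ := 0x1000000020000000400000008000000100000000000000000000000000000000000000000000000000000000000000000000000000000000000000000000000000000000000000000000000000000000000000000000000000000000000000000000000000000000000000000000000000000000000000000000000000000000100000000800000004000000020000000100000000000000000000000000000000000000000000000000000000000000000000000000000000000000000000000000000000000000000000000000000000000000000000000000000000000000000000000000000000000000000000000000000000000000000000000000000010000000100000001000000010000000100000000000000000000000000000000000000000000000000000000000000000000000000000000000000000000000000000000000000000000000000000000000000000000000000000000000000000000000000000000000000000000000000000000000000000000000000000001f00000000000000000000000000000000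

/-- windows through the (inner) cell `c` -/
def WT (c : ℕ) : ℕ := Nat.shiftLeft TM (Nat.sub c 132)

/-- inner cells -/
def Inner (c : ℕ) : Prop := 4 ≤ c % 32 ∧ c % 32 ≤ 27 ∧ 4 ≤ c / 32 ∧ c / 32 ≤ 27

/-- mask of the inner cells -/
def IM : ℕ := 0xffffff00ffffff00ffffff00ffffff00ffffff00ffffff00ffffff00ffffff00ffffff00ffffff00ffffff00ffffff00ffffff00ffffff00ffffff00ffffff00ffffff00ffffff00ffffff00ffffff00ffffff00ffffff00ffffff00ffffff000000000000000000000000000000000

/-- union of the cells of the windows of one direction (step `dl`), `e` below `2^1024` -/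
def expand (e dl : ℕ) : ℕ :=
  let a := Nat.lor e (Nat.shiftLeft e dl)
  let b := Nat.lor a (Nat.shiftLeft a (Nat.mul 2 dl))
  Nat.lor b (Nat.shiftLeft e (Nat.mul 4 dl))

def FM : ℕ := 0xffffffffffffffffffffffffffffffffffffffffffffffffffffffffffffffffffffffffffffffffffffffffffffffffffffffffffffffffffffffffffffffffffffffffffffffffffffffffffffffffffffffffffffffffffffffffffffffffffffffffffffffffffffffffffffffffffffffffffffffffffffffffffffffff

/-- union of the cells of the windows in the window mask `E` -/
def cellsOf (E : ℕ) : ℕ :=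
  Nat.lor (Nat.lor (expand (Nat.land E FM) 1) (expand (Nat.land (Nat.shiftRight E 1024) FM) 32))
    (Nat.lor (expand (Nat.land (Nat.shiftRight E 2048) FM) 33)
      (expand (Nat.land (Nat.shiftRight E 3072) FM) 31))

/-- the windows of a window mask, as real windows -/
def InMask (off : Cell) (E : ℕ) (L : Finset Cell) : Prop :=
  ∃ k, VM.testBit k = true ∧ E.testBit k = true ∧ L = winK off k

open Classical in
/-- caps from masks: 1 on `C1`, 2 on `C2`, `g` elsewhere -/
noncomputable def capOf (off : Cell) (C1 C2 g : ℕ) (L : Finset Cell) : ℕ :=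
  if InMask off C1 L then 1 else if InMask off C2 L then 2 else g

/-! ### Lemmas on cells -/

theorem mem_dec {off : Cell} {n : ℕ} {c : Cell} :
    c ∈ dec off n ↔ ∃ i, i < 1024 ∧ n.testBit i = true ∧ c = cellOf off i := by
  unfold dec
  simp only [mem_image, mem_filter, mem_range]
  constructor
  · rintro ⟨i, ⟨h1, h2⟩, h3⟩
    exact ⟨i, h1, h2, h3.symm⟩
  · rintro ⟨i, h1, h2, h3⟩
    exact ⟨i, ⟨h1, h2⟩, h3.symm⟩

theorem cellOf_inj {off : Cell} {i j : ℕ} (hi : i < 1024) (hj : j < 1024)
    (h : cellOf off i = cellOf off j) : i = j := by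
  unfold cellOf at h
  simp only [Prod.mk.injEq] at h
  omega

theorem cellOf_mem_dec {off : Cell} {n i : ℕ} (hi : i < 1024) :
    cellOf off i ∈ dec off n ↔ n.testBit i = true := by
  rw [mem_dec]
  constructor
  · rintro ⟨j, h1, h2, h3⟩
    rwa [cellOf_inj hi h1 h3]
  · intro h
    exact ⟨i, hi, h, rfl⟩

theorem dec_zero {off : Cell} : dec off 0 = ∅ := by
  ext c
  rw [mem_dec]
  simp

theorem dec_lor {off : Cell} {n m : ℕ} : dec off (Nat.lor n m) = dec off n ∪ dec off m := by
  have e : Nat.lor n m = n ||| m := rfl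
  ext c
  rw [mem_union, mem_dec, mem_dec, mem_dec, e]
  simp only [Nat.testBit_or, Bool.or_eq_true]
  constructor
  · rintro ⟨i, h1, h2 | h2, h3⟩
    · exact Or.inl ⟨i, h1, h2, h3⟩
    · exact Or.inr ⟨i, h1, h2, h3⟩
  · rintro (⟨i, h1, h2, h3⟩ | ⟨i, h1, h2, h3⟩)
    · exact ⟨i, h1, Or.inl h2, h3⟩
    · exact ⟨i, h1, Or.inr h2, h3⟩

theorem dec_land {off : Cell} {n m : ℕ} : dec off (Nat.land n m) = dec off n ∩ dec off m := by
  have e : Nat.land n m = n &&& m := rfl
  ext c
  rw [mem_inter, mem_dec, mem_dec, mem_dec, e]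
  simp only [Nat.testBit_and, Bool.and_eq_true]
  constructor
  · rintro ⟨i, h1, ⟨h2, h2'⟩, h3⟩
    exact ⟨⟨i, h1, h2, h3⟩, ⟨i, h1, h2', h3⟩⟩
  · rintro ⟨⟨i, h1, h2, h3⟩, ⟨j, h4, h5, h6⟩⟩
    have : i = j := cellOf_inj h1 h4 (h3.symm.trans h6)
    subst this
    exact ⟨i, h1, ⟨h2, h5⟩, h3⟩

theorem dec_bit {off : Cell} {c : ℕ} (hc : c < 1024) :
    dec off (Nat.shiftLeft 1 c) = {cellOf off c} := by
  have e : Nat.shiftLeft 1 c = 1 <<< c := rfl
  ext d
  rw [mem_singleton, mem_dec, e]
  constructor
  · rintro ⟨i, h1, h2, h3⟩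
    rw [Nat.testBit_shiftLeft, Bool.and_eq_true, decide_eq_true_eq] at h2
    obtain ⟨h2, h4⟩ := h2
    rw [Nat.testBit_one_eq_true_iff_self_eq_zero] at h4
    have : i = c := by omega
    rw [h3, this]
  · intro h
    refine ⟨c, hc, ?_, h⟩
    rw [Nat.testBit_shiftLeft]
    simp

theorem cellOf_add {off : Cell} {i dx dy : ℕ} (h : i % 32 + dx < 32) :
    cellOf off (i + (dx + 32 * dy)) = cellOf (off.1 + dx, off.2 + dy) i := by
  have h1 : (i + (dx + 32 * dy)) % 32 = i % 32 + dx := by omega
  have h2 : (i + (dx + 32 * dy)) / 32 = i / 32 + dy := by omega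
  unfold cellOf
  rw [h1, h2]
  ext
  · simp only; push_cast; ring
  · simp only; push_cast; ring

/-- translation of a board: no wrapping if all bits `i` satisfy `i % 32 + dx < 32`,
`i / 32 + dy < 32`. -/
theorem dec_shift {off : Cell} {n dx dy : ℕ}
    (h : ∀ i, i < 1024 → n.testBit i = true → i % 32 + dx < 32 ∧ i / 32 + dy < 32)
    (hn : ∀ i, 1024 ≤ i → n.testBit i = false) :
    dec off (Nat.shiftLeft n (dx + 32 * dy)) = dec (off.1 + dx, off.2 + dy) n := by
  have e : Nat.shiftLeft n (dx + 32 * dy) = n <<< (dx + 32 * dy) := rfl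
  ext c
  rw [mem_dec, mem_dec, e]
  constructor
  · rintro ⟨i, h1, h2, h3⟩
    rw [Nat.testBit_shiftLeft, Bool.and_eq_true, decide_eq_true_eq] at h2
    obtain ⟨h2, h4⟩ := h2
    obtain ⟨i', rfl⟩ : ∃ i', i = i' + (dx + 32 * dy) := ⟨i - (dx + 32 * dy), by omega⟩
    rw [Nat.add_sub_cancel] at h4
    have h5 : i' < 1024 := by omega
    refine ⟨i', h5, h4, ?_⟩
    rw [h3, cellOf_add (h i' h5 h4).1]
  · rintro ⟨i, h1, h2, h3⟩
    obtain ⟨h4, h5⟩ := h i h1 h2
    refine ⟨i + (dx + 32 * dy), by omega, ?_, ?_⟩
    · rw [Nat.testBit_shiftLeft]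
      simp [h2]
    · rw [h3, cellOf_add h4]

theorem cellOf_tr {s : Cell} {i : ℕ} : cellOf s i = tr s (cellOf (0, 0) i) := by
  unfold cellOf tr
  simp only [Equiv.coe_fn_mk]
  ext <;> simp only <;> ring

theorem dec_mv_tr {s : Cell} {n : ℕ} : dec s n = mv (tr s) (dec (0, 0) n) := by
  ext c
  rw [mem_mv, mem_dec, mem_dec]
  simp only [cellOf_tr (s := s), Equiv.symm_apply_eq]

/-! ### Lemmas on windows -/

theorem VM_lt_pow : VM < 2 ^ 4096 := by
  decide +kernel

theorem VM_lt {k : ℕ} (hk : VM.testBit k = true) : k < 4096 := by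
  by_contra h
  have h1 : VM < 2 ^ k := lt_of_lt_of_le VM_lt_pow (Nat.pow_le_pow_right (by norm_num) (by omega))
  rw [Nat.testBit_lt_two_pow h1] at hk
  exact Bool.false_ne_true hk

/-- the valid starts -/
def vcond (d y x : ℕ) : Bool :=
  match d with
  | 0 => decide (x ≤ 27)
  | 1 => decide (y ≤ 27)
  | 2 => decide (x ≤ 27) && decide (y ≤ 27)
  | _ => decide (4 ≤ x) && decide (y ≤ 27)

theorem VM_char : ∀ d < 4, ∀ y < 32, ∀ x < 32, VM.testBit (1024 * d + 32 * y + x) = vcond d y x := by
  decide +kernel

theorem VM_iff {k : ℕ} : VM.testBit k = true ↔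
    k < 4096 ∧ vcond (k / 1024) (k % 1024 / 32) (k % 32) = true := by
  constructor
  · intro h
    have h1 := VM_lt h
    refine ⟨h1, ?_⟩
    rw [← VM_char (k / 1024) (by omega) (k % 1024 / 32) (by omega) (k % 32) (by omega)]
    rw [show 1024 * (k / 1024) + 32 * (k % 1024 / 32) + k % 32 = k by omega]
    exact h
  · rintro ⟨h1, h2⟩
    rw [← VM_char (k / 1024) (by omega) (k % 1024 / 32) (by omega) (k % 32) (by omega)] at h2
    rw [show 1024 * (k / 1024) + 32 * (k % 1024 / 32) + k % 32 = k by omega] at h2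
    exact h2

/-- `k` in coordinates -/
theorem VM_cases {k : ℕ} (hk : VM.testBit k = true) : ∃ d y x : ℕ, d < 4 ∧ y < 32 ∧ x < 32 ∧
    k = 1024 * d + 32 * y + x ∧ k / 1024 = d ∧ k % 1024 = 32 * y + x ∧ vcond d y x = true := by
  obtain ⟨h1, h2⟩ := VM_iff.1 hk
  exact ⟨k / 1024, k % 1024 / 32, k % 32, by omega, by omega, by omega, by omega, rfl, by omega, h2⟩

theorem VM_mk {d y x : ℕ} (hd : d < 4) (hy : y < 32) (hx : x < 32) (h : vcond d y x = true) :
    VM.testBit (1024 * d + 32 * y + x) = true := by
  rw [VM_char d hd y hy x hx]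
  exact h

/-- coordinates of the cells of a window -/
theorem vcond_cell {d y x j : ℕ} (hd : d < 4) (hy : y < 32) (hx : x < 32) (hj : j < 5)
    (h : vcond d y x = true) :
    32 * y + x + j * delta d < 1024 ∧
    ((32 * y + x + j * delta d) % 32 : ℤ) = x + j * (if d = 1 then 0 else if d = 3 then -1 else 1) ∧
    ((32 * y + x + j * delta d) / 32 : ℤ) = y + j * (if d = 0 then 0 else 1) := by
  obtain rfl | rfl | rfl | rfl : d = 0 ∨ d = 1 ∨ d = 2 ∨ d = 3 := by omega
  · simp only [vcond, decide_eq_true_eq, delta] at h ⊢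
    simp
    omega
  · simp only [vcond, decide_eq_true_eq, delta] at h ⊢
    simp
    omega
  · simp only [vcond, Bool.and_eq_true, decide_eq_true_eq, delta] at h ⊢
    simp
    omega
  · simp only [vcond, Bool.and_eq_true, decide_eq_true_eq, delta] at h ⊢
    simp
    omega

/-- all five cells of a valid window are board cells -/
theorem VM_cells {k : ℕ} (hk : VM.testBit k = true) {j : ℕ} (hj : j < 5) :
    k % 1024 + j * delta (k / 1024) < 1024 := by
  obtain ⟨d, y, x, hd, hy, hx, rfl, h1, h2, h3⟩ := VM_cases hk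
  rw [h1, h2]
  exact (vcond_cell hd hy hx hj h3).1

theorem cellOf_window {off : Cell} {d y x j : ℕ} (hd : d < 4) (hy : y < 32) (hx : x < 32)
    (hj : j < 5) (h : vcond d y x = true) :
    cellOf off (32 * y + x + j * delta d) =
      (off.1 + x + j * (if d = 1 then 0 else if d = 3 then -1 else 1),
        off.2 + y + j * (if d = 0 then 0 else 1)) := by
  obtain ⟨-, h1, h2⟩ := vcond_cell hd hy hx hj h
  unfold cellOf
  ext
  · simp only
    push_cast
    push_cast at h1
    rw [h1]
    ring
  · simp only
    push_cast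
    push_cast at h2
    rw [h2]
    ring

/-- a window in coordinates -/
theorem winK_eq_win5 {off : Cell} {d y x : ℕ} (hd : d < 3) (hy : y < 32) (hx : x < 32)
    (h : vcond d y x = true) :
    winK off (1024 * d + 32 * y + x) = win5 (off.1 + x, off.2 + y)
      (if d = 1 then 0 else 1, if d = 0 then 0 else 1) := by
  unfold winK win5
  apply Finset.image_congr
  intro j hj
  rw [Finset.mem_coe, mem_range] at hj
  have h1 : (1024 * d + 32 * y + x) % 1024 = 32 * y + x := by omega
  have h2 : (1024 * d + 32 * y + x) / 1024 = d := by omega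
  simp only [h1, h2]
  rw [cellOf_window (by omega) hy hx hj h, if_neg (show ¬ d = 3 by omega)]

theorem winK_eq_win5' {off : Cell} {y x : ℕ} (hy : y < 32) (hx : x < 32)
    (h : vcond 3 y x = true) :
    winK off (1024 * 3 + 32 * y + x) = win5 (off.1 + x - 4, off.2 + y + 4) (1, -1) := by
  ext c
  rw [mem_win5]
  unfold winK
  rw [mem_image]
  have h1 : (1024 * 3 + 32 * y + x) % 1024 = 32 * y + x := by omega
  have h2 : (1024 * 3 + 32 * y + x) / 1024 = 3 := by omega
  simp only [h1, h2]
  constructor
  · rintro ⟨j, hj, rfl⟩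
    rw [mem_range] at hj
    refine ⟨4 - j, by omega, ?_⟩
    have h4 : ((4 - j : ℕ) : ℤ) = 4 - j := by omega
    rw [cellOf_window (by omega) hy hx hj h, h4]
    ext <;> simp <;> ring
  · rintro ⟨i, hi, rfl⟩
    refine ⟨4 - i, mem_range.2 (by omega), ?_⟩
    have h4 : ((4 - i : ℕ) : ℤ) = 4 - i := by omega
    rw [cellOf_window (by omega) hy hx (by omega) h, h4]
    ext <;> simp <;> ring

theorem isLine_winK {off : Cell} {k : ℕ} (hk : VM.testBit k = true) : IsLine (winK off k) := by
  obtain ⟨d, y, x, hd, hy, hx, rfl, h1, h2, h3⟩ := VM_cases hk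
  by_cases hd3 : d = 3
  · subst hd3
    rw [winK_eq_win5' hy hx h3]
    exact isLine_win5 (Or.inr (Or.inr (Or.inr rfl)))
  · rw [winK_eq_win5 (by omega) hy hx h3]
    apply isLine_win5
    unfold IsDir
    obtain rfl | rfl | rfl : d = 0 ∨ d = 1 ∨ d = 2 := by omega
    · left; simp
    · right; left; simp
    · right; right; left; simp

/-- every real window that meets an inner cell is a window of the board -/
theorem exists_winK {off : Cell} {L : Finset Cell} (hL : IsLine L) {c : ℕ} (hc : Inner c)
    (h : cellOf off c ∈ L) : ∃ k, VM.testBit k = true ∧ L = winK off k := by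
  obtain ⟨p, v, hv, rfl⟩ := hL
  rw [mem_win5] at h
  obtain ⟨i, hi, he⟩ := h
  obtain ⟨h1, h2, h3, h4⟩ := hc
  unfold cellOf at he
  obtain ⟨p1, p2⟩ := p
  simp only [Prod.mk.injEq] at he
  obtain ⟨e1, e2⟩ := he
  generalize hX : c % 32 = X at *
  generalize hY : c / 32 = Y at *
  rcases hv with rfl | rfl | rfl | rfl
  · have hv0 : vcond 0 Y (X - i) = true := by
      simp only [vcond, decide_eq_true_eq]; omega
    refine ⟨1024 * 0 + 32 * Y + (X - i), VM_mk (by omega) (by omega) (by omega) hv0, ?_⟩
    rw [winK_eq_win5 (by omega) (by omega) (by omega) hv0]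
    simp only at e1 e2
    congr 1
    · ext
      · simp only; omega
      · simp only; omega
  · have hv0 : vcond 1 (Y - i) X = true := by
      simp only [vcond, decide_eq_true_eq]; omega
    refine ⟨1024 * 1 + 32 * (Y - i) + X, VM_mk (by omega) (by omega) (by omega) hv0, ?_⟩
    rw [winK_eq_win5 (by omega) (by omega) (by omega) hv0]
    simp only at e1 e2
    congr 1
    · ext
      · simp only; omega
      · simp only; omega
  · have hv0 : vcond 2 (Y - i) (X - i) = true := by
      simp only [vcond, Bool.and_eq_true, decide_eq_true_eq]; omega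
    refine ⟨1024 * 2 + 32 * (Y - i) + (X - i), VM_mk (by omega) (by omega) (by omega) hv0, ?_⟩
    rw [winK_eq_win5 (by omega) (by omega) (by omega) hv0]
    simp only at e1 e2
    congr 1
    · ext
      · simp only; omega
      · simp only; omega
  · have hv0 : vcond 3 (Y + i - 4) (X - i + 4) = true := by
      simp only [vcond, Bool.and_eq_true, decide_eq_true_eq]; omega
    refine ⟨1024 * 3 + 32 * (Y + i - 4) + (X - i + 4), VM_mk (by omega) (by omega) (by omega) hv0, ?_⟩
    rw [winK_eq_win5' (by omega) (by omega) hv0]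
    simp only at e1 e2
    congr 1
    · ext
      · simp only; omega
      · simp only; omega

theorem inner_lt {c : ℕ} (hc : Inner c) : c < 1024 := by
  unfold Inner at hc
  omega

theorem TM_lt_pow : TM < 2 ^ 4096 := by
  decide +kernel

/-- `TM` as a list of bits -/
theorem TM_char_aux : ∀ a < 64, ∀ b < 64, TM.testBit (64 * a + b) =
    ((List.range 4).any fun d => (List.range 5).any fun j =>
      Nat.beq (64 * a + b + j * delta d) (1024 * d + 132)) := by
  decide +kernel

theorem TM_char {m : ℕ} : TM.testBit m = true ↔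
    ∃ d j, d < 4 ∧ j < 5 ∧ m + j * delta d = 1024 * d + 132 := by
  by_cases hm : m < 4096
  · have h := TM_char_aux (m / 64) (by omega) (m % 64) (by omega)
    rw [show 64 * (m / 64) + m % 64 = m by omega] at h
    rw [h]
    simp only [List.any_eq_true, List.mem_range]
    constructor
    · rintro ⟨d, hd, j, hj, he⟩
      exact ⟨d, j, hd, hj, Nat.eq_of_beq_eq_true he⟩
    · rintro ⟨d, j, hd, hj, he⟩
      refine ⟨d, hd, j, hj, ?_⟩
      rw [he]
      exact Nat.beq_refl _
  · constructor
    · intro h
      have h1 : TM < 2 ^ m :=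
        lt_of_lt_of_le TM_lt_pow (Nat.pow_le_pow_right (by norm_num) (by omega))
      rw [Nat.testBit_lt_two_pow h1] at h
      exact absurd h Bool.false_ne_true
    · rintro ⟨d, j, hd, hj, he⟩
      omega

theorem testBit_WT {off : Cell} {c k : ℕ} (hc : Inner c) (hk : VM.testBit k = true) :
    (WT c).testBit k = true ↔ cellOf off c ∈ winK off k := by
  have hclt := inner_lt hc
  have hc132 : 132 ≤ c := by unfold Inner at hc; omega
  have e : WT c = TM <<< (c - 132) := rfl
  have h4 := VM_lt hk
  rw [e, Nat.testBit_shiftLeft, Bool.and_eq_true, decide_eq_true_eq, TM_char]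
  unfold winK
  rw [mem_image]
  constructor
  · rintro ⟨h1, d, j, hd, hj, he⟩
    have hdel : delta d ≤ 33 := by
      obtain rfl | rfl | rfl | rfl : d = 0 ∨ d = 1 ∨ d = 2 ∨ d = 3 := by omega
      all_goals simp [delta]
    have hjd : j * delta d ≤ 4 * 33 := Nat.mul_le_mul (by omega) hdel
    have hkd : k + j * delta d = 1024 * d + c := by omega
    generalize hJ : j * delta d = J at *
    have h5 : k / 1024 = d := by omega
    have h6 : k % 1024 + J = c := by omega
    refine ⟨j, mem_range.2 hj, ?_⟩
    rw [h5, hJ, h6]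
  · rintro ⟨j, hj, he⟩
    rw [mem_range] at hj
    have h5 := cellOf_inj (VM_cells hk hj) hclt he
    have hdel : delta (k / 1024) ≤ 33 := by
      have h7 : k / 1024 < 4 := by omega
      generalize k / 1024 = d at h7
      obtain rfl | rfl | rfl | rfl : d = 0 ∨ d = 1 ∨ d = 2 ∨ d = 3 := by omega
      all_goals simp [delta]
    have hjd : j * delta (k / 1024) ≤ 4 * 33 := Nat.mul_le_mul (by omega) hdel
    generalize hJ : j * delta (k / 1024) = J at *
    refine ⟨by omega, k / 1024, j, by omega, hj, ?_⟩
    rw [hJ]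
    omega

theorem IM_lt_pow : IM < 2 ^ 1024 := by
  decide +kernel

theorem IM_char_aux : ∀ y < 32, ∀ x < 32, IM.testBit (32 * y + x) =
    (decide (4 ≤ x) && decide (x ≤ 27) && decide (4 ≤ y) && decide (y ≤ 27)) := by
  decide +kernel

theorem testBit_IM {c : ℕ} : IM.testBit c = true ↔ Inner c := by
  by_cases hm : c < 1024
  · have h := IM_char_aux (c / 32) (by omega) (c % 32) (by omega)
    rw [show 32 * (c / 32) + c % 32 = c by omega] at h
    rw [h]
    unfold Inner
    simp only [Bool.and_eq_true, decide_eq_true_eq]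
    tauto
  · constructor
    · intro h
      have h1 : IM < 2 ^ c :=
        lt_of_lt_of_le IM_lt_pow (Nat.pow_le_pow_right (by norm_num) (by omega))
      rw [Nat.testBit_lt_two_pow h1] at h
      exact absurd h Bool.false_ne_true
    · intro h
      exact absurd (inner_lt h) hm

theorem testBit_expand {e dl s j : ℕ} (hj : j < 5) (h : e.testBit s = true) :
    (expand e dl).testBit (s + j * dl) = true := by
  have e1 : expand e dl = ((e ||| e <<< dl) ||| ((e ||| e <<< dl) <<< (2 * dl))) |||
    (e <<< (4 * dl)) := rfl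
  rw [e1]
  simp only [Nat.testBit_or, Nat.testBit_shiftLeft, Bool.or_eq_true, Bool.and_eq_true,
    decide_eq_true_eq]
  obtain rfl | rfl | rfl | rfl | rfl : j = 0 ∨ j = 1 ∨ j = 2 ∨ j = 3 ∨ j = 4 := by omega
  · left; left; left
    simpa using h
  · left; left; right
    refine ⟨by omega, ?_⟩
    rwa [show s + 1 * dl - dl = s by omega]
  · left; right
    refine ⟨by omega, Or.inl ?_⟩
    rwa [show s + 2 * dl - 2 * dl = s by omega]
  · left; right
    refine ⟨by omega, Or.inr ⟨by omega, ?_⟩⟩
    rwa [show s + 3 * dl - 2 * dl - dl = s by omega]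
  · right
    refine ⟨by omega, ?_⟩
    rwa [show s + 4 * dl - 4 * dl = s by omega]

theorem FM_eq : FM = 2 ^ 1024 - 1 := by
  decide +kernel

theorem testBit_FM {s : ℕ} (hs : s < 1024) : FM.testBit s = true := by
  rw [FM_eq, Nat.testBit_two_pow_sub_one]
  exact decide_eq_true hs

theorem testBit_part {E s : ℕ} (a : ℕ) (hs : s < 1024) (h : E.testBit (a + s) = true) :
    (Nat.land (Nat.shiftRight E a) FM).testBit s = true := by
  have e : Nat.land (Nat.shiftRight E a) FM = (E >>> a) &&& FM := rfl
  rw [e, Nat.testBit_and, Nat.testBit_shiftRight, h, testBit_FM hs]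
  rfl

theorem winK_subset_cellsOf {off : Cell} {E k : ℕ} (hk : VM.testBit k = true)
    (hE : E.testBit k = true) : winK off k ⊆ dec off (cellsOf E) := by
  intro c hc
  have hc0 := hc
  unfold winK at hc
  rw [mem_image] at hc
  obtain ⟨j, hj, rfl⟩ := hc
  rw [mem_range] at hj
  rw [cellOf_mem_dec (VM_cells hk hj)]
  obtain ⟨d, y, x, hd, hy, hx, rfl, h1, h2, h3⟩ := VM_cases hk
  rw [h1, h2]
  have hs : 32 * y + x < 1024 := by omega
  have e : cellsOf E = (expand (Nat.land E FM) 1 ||| expand (Nat.land (Nat.shiftRight E 1024) FM) 32) |||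
      (expand (Nat.land (Nat.shiftRight E 2048) FM) 33 |||
        expand (Nat.land (Nat.shiftRight E 3072) FM) 31) := rfl
  rw [e]
  simp only [Nat.testBit_or, Bool.or_eq_true]
  obtain rfl | rfl | rfl | rfl : d = 0 ∨ d = 1 ∨ d = 2 ∨ d = 3 := by omega
  · left; left
    apply testBit_expand hj
    have := testBit_part 0 hs (E := E) (by rw [← hE]; congr 1; omega)
    exact this
  · left; right
    apply testBit_expand hj
    exact testBit_part 1024 hs (E := E) (by rw [← hE]; congr 1; omega)
  · right; left
    apply testBit_expand hj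
    exact testBit_part 2048 hs (E := E) (by rw [← hE]; congr 1; omega)
  · right; right
    apply testBit_expand hj
    exact testBit_part 3072 hs (E := E) (by rw [← hE]; congr 1; omega)

/-- shifting one window -/
theorem winK_shift {off : Cell} {n k dx dy : ℕ}
    (h : ∀ i, i < 1024 → n.testBit i = true → i % 32 + dx < 32 ∧ i / 32 + dy < 32)
    (hk : VM.testBit k = true)
    (hn : ∀ j, j < 5 → n.testBit (k % 1024 + j * delta (k / 1024)) = true) :
    VM.testBit (k + (dx + 32 * dy)) = true ∧
      winK off (k + (dx + 32 * dy)) = winK (off.1 + dx, off.2 + dy) k := by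
  have h0 : ∀ j, j < 5 → (k % 1024 + j * delta (k / 1024)) % 32 + dx < 32 ∧
      (k % 1024 + j * delta (k / 1024)) / 32 + dy < 32 :=
    fun j hj => h _ (VM_cells hk hj) (hn j hj)
  obtain ⟨d, y, x, hd, hy, hx, rfl, h1, h2, h3⟩ := VM_cases hk
  rw [h1, h2] at h0
  have ha := h0 0 (by omega)
  have hb := h0 4 (by omega)
  have hv : vcond d (y + dy) (x + dx) = true ∧ y + dy < 32 ∧ x + dx < 32 := by
    obtain rfl | rfl | rfl | rfl : d = 0 ∨ d = 1 ∨ d = 2 ∨ d = 3 := by omega
    · simp only [vcond, decide_eq_true_eq, delta] at *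
      omega
    · simp only [vcond, decide_eq_true_eq, delta] at *
      omega
    · simp only [vcond, Bool.and_eq_true, decide_eq_true_eq, delta] at *
      omega
    · simp only [vcond, Bool.and_eq_true, decide_eq_true_eq, delta] at *
      omega
  obtain ⟨hv, hy', hx'⟩ := hv
  have e : 1024 * d + 32 * y + x + (dx + 32 * dy) = 1024 * d + 32 * (y + dy) + (x + dx) := by ring
  rw [e]
  refine ⟨VM_mk hd hy' hx' hv, ?_⟩
  unfold winK
  apply Finset.image_congr
  intro j hj
  rw [Finset.mem_coe, mem_range] at hj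
  have h4 : (1024 * d + 32 * (y + dy) + (x + dx)) % 1024 = 32 * (y + dy) + (x + dx) := by omega
  have h5 : (1024 * d + 32 * (y + dy) + (x + dx)) / 1024 = d := by omega
  simp only [h1, h2, h4, h5]
  rw [cellOf_window hd hy' hx' hj hv, cellOf_window hd hy hx hj h3]
  ext <;> simp only <;> push_cast <;> ring

/-- translation of window masks. `n` (cells) contains all cells of the windows in `E`. -/
theorem inMask_shift {off : Cell} {E n dx dy : ℕ}
    (h : ∀ i, i < 1024 → n.testBit i = true → i % 32 + dx < 32 ∧ i / 32 + dy < 32)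
    (hEV : ∀ k, E.testBit k = true → VM.testBit k = true)
    (hEn : ∀ k, E.testBit k = true → ∀ j, j < 5 →
      n.testBit (k % 1024 + j * delta (k / 1024)) = true) (L : Finset Cell) :
    InMask off (Nat.shiftLeft E (dx + 32 * dy)) L ↔ InMask (off.1 + dx, off.2 + dy) E L := by
  have e : Nat.shiftLeft E (dx + 32 * dy) = E <<< (dx + 32 * dy) := rfl
  unfold InMask
  rw [e]
  constructor
  · rintro ⟨k, h1, h2, h3⟩
    rw [Nat.testBit_shiftLeft, Bool.and_eq_true, decide_eq_true_eq] at h2
    obtain ⟨h2, h4⟩ := h2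
    obtain ⟨i, rfl⟩ : ∃ i, k = i + (dx + 32 * dy) := ⟨k - (dx + 32 * dy), by omega⟩
    rw [Nat.add_sub_cancel] at h4
    obtain ⟨-, h5⟩ := winK_shift (off := off) h (hEV i h4) (hEn i h4)
    exact ⟨i, hEV i h4, h4, h3.trans h5⟩
  · rintro ⟨k, h1, h2, h3⟩
    obtain ⟨h4, h5⟩ := winK_shift (off := off) h (hEV k h2) (hEn k h2)
    refine ⟨k + (dx + 32 * dy), h4, ?_, h3.trans h5.symm⟩
    rw [Nat.testBit_shiftLeft]
    simp [h2]

theorem winK_tr {s : Cell} {k : ℕ} : winK s k = mv (tr s) (winK (0, 0) k) := by
  unfold winK mv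
  rw [Finset.map_eq_image, Finset.image_image]
  apply Finset.image_congr
  intro j _
  exact cellOf_tr

theorem inMask_mv_tr {s : Cell} {E : ℕ} {L : Finset Cell} :
    InMask s E (mv (tr s) L) ↔ InMask (0, 0) E L := by
  unfold InMask
  constructor
  · rintro ⟨k, h1, h2, h3⟩
    refine ⟨k, h1, h2, ?_⟩
    rw [winK_tr] at h3
    have := congrArg (mv (tr s).symm) h3
    rwa [mv_symm_mv, mv_symm_mv] at this
  · rintro ⟨k, h1, h2, h3⟩
    refine ⟨k, h1, h2, ?_⟩
    rw [winK_tr, h3]

end Pool.Agent.Gomoku
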