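import Pool.Agent.Helper47.Gomoku.Far

set_option autoImplicit false

/-!
Local version of the far lemma: a pair of white stones outside the zone of the answer `b3`.
-/

namespace Pool.Agent.Gomoku

open Finset

/-- The far open three, local form. -/
theorem exists_env_three_local {B K : Finset Cell} {x1 y2 y3 : Cell}
    (hloc : ∀ v, IsDir v → ∀ i : ℤ, -4 ≤ i → i ≤ 4 → y2 = at' x1 v i →
      ∀ t : ℤ, max i 0 - 6 ≤ t → t ≤ min i 0 + 6 → at' x1 v t ∉ K)
    (h12 : x1 ≠ y2) (h13 : x1 ≠ y3) (h23 : y2 ≠ y3) {L0 : Finset Cell} (hL0 : IsLine L0)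
    (hx : x1 ∈ L0) (hy2 : y2 ∈ L0) (hy3 : y3 ∈ L0) :
    ∃ b, b ∉ K ∧ b ∉ ({x1, y2, y3} : Finset Cell) ∧
      ∃ p q, Env B K (fun _ => 1) {x1, y2, y3} {b} (some (p, q)) := by
  obtain ⟨a, v, hv, rfl⟩ := hL0
  obtain ⟨i, hi, rfl⟩ := win5_eq_at' hx
  obtain ⟨j, hj, rfl⟩ := win5_eq_at' hy2
  obtain ⟨k, hk, rfl⟩ := win5_eq_at' hy3
  have hij : i ≠ j := fun h => h12 (by rw [h])
  have hik : i ≠ k := fun h => h13 (by rw [h])
  have hjk : j ≠ k := fun h => h23 (by rw [h])
  obtain ⟨b, p, q, ⟨⟨hbS, hpS, hqS, hbp, hbq, hpq⟩, hb, hs⟩⟩ := good_exists hi hj hk hij hik hjk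
  have hX : ({at' a v i, at' a v j, at' a v k} : Finset Cell) =
      ({i, j, k} : Finset ℤ).image (at' a v) := by
    ext c
    simp only [Finset.mem_insert, Finset.mem_singleton, Finset.mem_image]
    constructor
    · rintro (rfl | rfl | rfl)
      · exact ⟨i, by simp, rfl⟩
      · exact ⟨j, by simp, rfl⟩
      · exact ⟨k, by simp, rfl⟩
    · rintro ⟨t, (rfl | rfl | rfl), rfl⟩ <;> simp
  rw [hX]
  have hfar : ∀ t, i - 6 ≤ t → t ≤ i + 6 → j - 6 ≤ t → t ≤ j + 6 → at' a v t ∉ K := by
    intro t h1 h2 h3 h4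
    have e1 : at' a v t = at' (at' a v i) v (t - i) := by
      unfold at'
      ext <;> simp <;> ring
    rw [e1]
    refine hloc v hv (j - i) (by omega) (by omega) ?_ (t - i) (by omega) (by omega)
    unfold at'
    ext <;> simp <;> ring
  have hmem : ∀ (S : Finset ℤ) (t : ℤ), t ∉ S → at' a v t ∉ S.image (at' a v) := by
    intro S t ht h
    rw [Finset.mem_image] at h
    obtain ⟨t', ht', h⟩ := h
    exact ht (at'_inj hv h ▸ ht')
  have hbi := hb i (by simp)
  have hbj := hb j (by simp)
  have hSK : Disjoint (({i, j, k} : Finset ℤ).image (at' a v)) K := by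
    rw [Finset.disjoint_left]
    intro c hc
    rw [Finset.mem_image] at hc
    obtain ⟨t, ht, rfl⟩ := hc
    simp only [Finset.mem_insert, Finset.mem_singleton] at ht
    apply hfar t <;> omega
  -- general counting lemma
  have count : ∀ (S : Finset ℤ) (L : Finset Cell), IsLine L →
      (∀ s, (∀ t, at' a v t ∈ L ↔ s ≤ t ∧ t ≤ s + 4) →
        ∀ i ∈ S, ∀ j ∈ S, Inw s i → Inw s j → i = j) →
      (L ∩ S.image (at' a v)).card ≤ 1 := by
    intro S L hL h
    rw [Finset.card_le_one]
    intro u hu w hw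
    rw [Finset.mem_inter, Finset.mem_image] at hu hw
    obtain ⟨huL, t, ht, rfl⟩ := hu
    obtain ⟨hwL, t', ht', rfl⟩ := hw
    by_contra hne
    have htt : t ≠ t' := fun h => hne (by rw [h])
    obtain ⟨s, hs'⟩ := line_interval hv hL huL hwL htt
    exact htt (h s hs' t ht t' ht' ((hs' t).1 huL) ((hs' t').1 hwL))
  refine ⟨at' a v b, hfar b hbi.1.1 hbi.1.2 hbj.1.1 hbj.1.2, hmem _ b hbS, at' a v p, at' a v q, ?_⟩
  have hpK := hfar p hbi.2.1.1 hbi.2.1.2 hbj.2.1.1 hbj.2.1.2
  have hqK := hfar q hbi.2.2.1 hbi.2.2.2 hbj.2.2.1 hbj.2.2.2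
  have hbK := hfar b hbi.1.1 hbi.1.2 hbj.1.1 hbj.1.2
  refine ⟨⟨?_, hpK, hqK, hmem _ p hpS, hmem _ q hqS, ?_, ?_⟩, ?_, hSK, ?_, ?_, ?_, ?_⟩
  · exact fun h => hpq (at'_inj hv h)
  · rw [Finset.mem_singleton]; exact fun h => hbp (at'_inj hv h).symm
  · rw [Finset.mem_singleton]; exact fun h => hbq (at'_inj hv h).symm
  · rw [Finset.disjoint_singleton_right]
    exact hmem _ b hbS
  · rw [Finset.disjoint_singleton_left]
    exact hbK
  · intro L hL hd hn
    apply count _ L hL
    intro s hs'
    have hb' : ¬ Inw s b := by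
      intro h
      have := (hs' b).2 h
      exact Finset.disjoint_left.1 hd this (by simp)
    exact (hs s hb').1 (fun h => hn ⟨(hs' p).2 h.1, (hs' q).2 h.2⟩)
  · intro L hL hd
    rw [← Finset.image_insert]
    apply count _ L hL
    intro s hs'
    have hb' : ¬ Inw s b := by
      intro h
      have := (hs' b).2 h
      exact Finset.disjoint_left.1 hd this (by simp)
    have hq' : ¬ Inw s q := by
      intro h
      have := (hs' q).2 h
      exact Finset.disjoint_left.1 hd this (by simp)
    exact (hs s hb').2.1 hq'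
  · intro L hL hd
    rw [← Finset.image_insert]
    apply count _ L hL
    intro s hs'
    have hb' : ¬ Inw s b := by
      intro h
      have := (hs' b).2 h
      exact Finset.disjoint_left.1 hd this (by simp)
    have hp' : ¬ Inw s p := by
      intro h
      have := (hs' p).2 h
      exact Finset.disjoint_left.1 hd this (by simp)
    exact (hs s hb').2.2 hp'

theorem far_pair {B2 : Finset Cell} {b3 : Cell} {KG : Finset Cell}
    (hb3 : b3 ∉ B2) (hBK : insert b3 B2 ⊆ KG)
    (hG : GValid (insert b3 B2) ∅ KG (fun _ => 2)) :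
    ∃ n, ∀ x1 y2 : Cell, x1 ∉ KG → y2 ∉ KG → x1 ≠ y2 →
      (∀ v, IsDir v → ∀ i : ℤ, -4 ≤ i → i ≤ 4 → y2 = at' x1 v i →
        ∀ t : ℤ, max i 0 - 6 ≤ t → t ≤ min i 0 + 6 → at' x1 v t ∉ KG) →
      Win n B2 {x1, y2} := by
  classical
  -- G as an AND node with caps 1
  have hG1 : AndValid ⟨insert b3 B2, ∅, KG, fun _ => 1⟩ := by
    apply hG.andValid hBK (Finset.empty_subset _) (Finset.disjoint_empty_right _)
    · intro L hL hd
      have : ceff KG (fun _ => 1) L ≤ 1 := min_le_left _ _
      simp only [Finset.inter_empty, Finset.card_empty]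
      omega
    · intro L hL
      exact le_refl _
  obtain ⟨m, hm⟩ := hG
  obtain ⟨m1, hm1⟩ := hG1
  refine ⟨m + m1 + 2, fun x1 y2 hx1K hyK hxy hloc => ?_⟩
  have hy2x : ¬ y2 = x1 := fun h => hxy h.symm
  have hpair : ({x1, y2} : Finset Cell) = insert y2 {x1} := by
    ext c
    simp only [Finset.mem_insert, Finset.mem_singleton]
    tauto
  rw [hpair]
  -- play b3
  have hb3K : b3 ∈ KG := hBK (Finset.mem_insert_self _ _)
  refine Win.of_and (b := b3) hb3 ?_ ?_
  · rw [Finset.mem_insert, Finset.mem_singleton, not_or]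
    exact ⟨fun h => hyK (h ▸ hb3K), fun h => hx1K (h ▸ hb3K)⟩
  intro y3 hy3B hy3W
  rw [Finset.mem_insert, Finset.mem_singleton, not_or] at hy3W
  have hcard3 : (insert y3 (insert y2 ({x1} : Finset Cell))).card < 5 := by
    have h1 := Finset.card_insert_le y2 ({x1} : Finset Cell)
    have h2 := Finset.card_insert_le y3 (insert y2 ({x1} : Finset Cell))
    simp at h1
    omega
  refine ⟨not_hasFive_of_card hcard3, ?_⟩
  by_cases hT : ∃ L, IsLine L ∧ x1 ∈ L ∧ y2 ∈ L ∧ y3 ∈ L
  · -- T-case
    obtain ⟨L0, hL0, hx, hy2, hy3⟩ := hT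
    obtain ⟨b, hbK, hbX, p, q, hE⟩ := exists_env_three_local (B := insert b3 B2) hloc
      (fun h => hy2x h.symm) (fun h => hy3W.2 h.symm) (fun h => hy3W.1 h.symm) hL0 hx hy2 hy3
    have hw := hm1 _ _ _ hE
    simp only at hw
    refine Win.mono (n := m1 + 1) (by omega) ?_
    refine Win.of_and (b := b) (fun h => hbK (hBK h)) ?_ ?_
    · simp only [Finset.mem_insert, Finset.mem_singleton] at hbX ⊢
      tauto
    · have e1 : insert b (insert b3 B2) = insert b3 B2 ∪ {b} := by
        rw [Finset.union_comm, ← Finset.insert_eq]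
      have e2 : insert y3 (insert y2 ({x1} : Finset Cell)) = ∅ ∪ {x1, y2, y3} := by
        rw [Finset.empty_union]
        ext c
        simp only [Finset.mem_insert, Finset.mem_singleton]
        tauto
      rw [e1, e2]
      exact hw
  · -- G with X = {x1, y2}
    have hE : Env (insert b3 B2) KG (capy (fun _ => 2) y3) (insert y2 {x1}) ∅ none := by
      refine ⟨Finset.disjoint_empty_right _, ?_, Finset.disjoint_empty_left _, ?_⟩
      · rw [Finset.disjoint_insert_left, Finset.disjoint_singleton_left]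
        exact ⟨hyK, hx1K⟩
      · intro L hL _
        unfold capy
        have h2 : (L ∩ insert y2 {x1}).card ≤ 2 :=
          (Finset.card_le_card Finset.inter_subset_right).trans
            ((Finset.card_insert_le _ _).trans (by simp))
        split_ifs with hy3L
        · -- y3 in L, so not both others
          show (L ∩ insert y2 {x1}).card ≤ 2 - 1
          by_contra hlt
          have h3 : (L ∩ insert y2 {x1}).card = 2 := by omega
          have h4 : (insert y2 ({x1} : Finset Cell)).card = 2 := by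
            rw [Finset.card_insert_of_notMem (by simpa using hy2x)]
            simp
          have h5 : L ∩ insert y2 {x1} = insert y2 {x1} :=
            Finset.eq_of_subset_of_card_le Finset.inter_subset_right (by omega)
          have h6 : insert y2 ({x1} : Finset Cell) ⊆ L := by
            rw [← h5]
            exact Finset.inter_subset_left
          exact hT ⟨L, hL, h6 (by simp), h6 (by simp), hy3L⟩
        · exact h2
    have := hm y3 hy3B (Finset.notMem_empty _) _ _ _ hE (Finset.notMem_empty _)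
      (by rw [Finset.mem_insert, Finset.mem_singleton, not_or]; exact hy3W)
      (by intro p q h; simp at h)
    have hw := this.2
    rw [Finset.union_empty, Finset.empty_union] at hw
    exact hw.mono (by omega)

end Pool.Agent.Gomoku
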