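import Pool.Agent.Helper93.Gomoku.XNode

set_option autoImplicit false

namespace Pool.Agent.Gomoku

open Finset

/-! # Items of level 2 checked by the fast evaluator -/

theorem xCells_eq (E : ℕ) : xCells E = cellsOf E := xCells_eq' E

theorem xSub_sub {x y : ℕ} (h : xSub x y = true) : Sub x y := by
  unfold xSub at h
  exact sub_of_lor_eq (eq_of_beq h)

theorem colMask_eq : ∀ mx, mx < 32 → Nat.mul XREP
    (Nat.shiftLeft (Nat.sub (Nat.shiftLeft 1 mx) 1) (Nat.sub 32 mx)) = colMask mx := by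
  decide +kernel

theorem subB_of_sub {x y : ℕ} (h : Sub x y) : subB x y = true := by
  have h1 : Nat.lor x y = y := by
    apply Nat.eq_of_testBit_eq
    intro i
    rw [tb_lor]
    cases hx : x.testBit i
    · rfl
    · rw [h i hx]; rfl
  unfold subB
  rw [h1]
  exact Nat.beq_refl y

theorem cellsOf_zero : cellsOf 0 = 0 := by decide +kernel

theorem lor_zero_right (x : ℕ) : Nat.lor x 0 = x := Nat.or_zero x

theorem xBox_spec {B W K C1 mx my : ℕ} (h : xBox B W K C1 mx my = true) :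
    boxOK ⟨B, W, K, C1, 0, 2, mx, my⟩ = true := by
  have h' : (((Nat.ble mx 31 && Nat.ble my 31) && (xSub C1 XVM && xSub (Nat.lor B W) K)) &&
    Nat.beq (Nat.lor
      (Nat.land (Nat.lor K (xCells C1)) (Nat.mul XREP
        (Nat.shiftLeft (Nat.sub (Nat.shiftLeft 1 mx) 1) (Nat.sub 32 mx))))
      (Nat.shiftRight (Nat.lor K (xCells C1)) (Nat.sub 1024 (Nat.mul 32 my)))) 0) = true := h
  simp only [Bool.and_eq_true] at h'
  obtain ⟨⟨⟨h1, h2⟩, h3, h4⟩, h5⟩ := h'
  have h6 := Nat.le_of_ble_eq_true h1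
  have h3 := xSub_sub h3
  have h4 := xSub_sub h4
  obtain ⟨h7, h8⟩ := lor_eq_zero (eq_of_beq h5)
  rw [colMask_eq mx (by omega), xCells_eq] at h7
  rw [xCells_eq] at h8
  rw [XVM_eq] at h3
  unfold boxOK
  simp only [cellsOf_zero, lor_zero_right]
  rw [h1, h2, h7, h8, subB_of_sub h3, subB_of_sub ((sub_lor_left B W).trans h4),
    subB_of_sub ((sub_lor_right B W).trans h4),
    subB_of_sub (x := 0) (y := VM) (fun i hi => by simp at hi)]
  rfl

/-- the black stones, after the black stones have been placed -/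
theorem Rep.black {off : Cell} {s : St} {b F A : ℕ} (h : Rep off s b F A) (hw : s.w = 0) :
    s.b = Nat.xor F XNIM := by
  apply Nat.eq_of_testBit_eq
  intro i
  rw [tb_xor2, h.F, tb_lor, tb_lor, hw, Nat.zero_testBit, Bool.or_false]
  cases hb : s.b.testBit i
  · cases XNIM.testBit i <;> rfl
  · rw [inner_xnim (h.inv.bi i hb)]; rfl

/-- the white stones, from the stones before and after -/
theorem Rep.white {off : Cell} {s s1 : St} {b b1 F A F1 A1 : ℕ} (h : Rep off s b F A)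
    (h1 : Rep off s1 b1 F1 A1) (hw : s.w = 0) (hb : s1.b = s.b) :
    s1.w = Nat.xor F1 F := by
  apply Nat.eq_of_testBit_eq
  intro i
  rw [tb_xor2, h.F, h1.F, tb_lor, tb_lor, tb_lor, tb_lor, hw, hb, Nat.zero_testBit, Bool.or_false]
  cases hi : s1.w.testBit i
  · simp
  · have hin := h1.inv.wi i hi
    rw [inner_xnim hin]
    have hbb : s.b.testBit i = false := by
      cases hc : s.b.testBit i
      · rfl
      · exfalso
        rw [← hb] at hc
        exact Finset.disjoint_left.1 h1.inv.disj ((cellOf_mem_dec (inner_lt hin)).2 hc)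
          ((cellOf_mem_dec (inner_lt hin)).2 hi)
    rw [hbb]; rfl

theorem rec_false {f : ℕ → ℕ → ℕ → Bool} {r : RX}
    (h : RX.rec (motive := fun _ => Bool) false f r = true) :
    ∃ N K G, r = RX.ok N K G ∧ f N K G = true := by
  cases r with
  | bad => exact absurd h (by simp)
  | ok N K G => exact ⟨N, K, G, rfl, h⟩

theorem chkX_spec {fuel B W K C1 mx my dx dy N : ℕ}
    (h : chkX fuel B W K C1 mx my dx dy N = true) :
    dx ≤ mx ∧ dy ≤ my ∧ xBox B W K C1 mx my = true ∧ ∀ off : Cell, ∃ (s : St) (K' G : ℕ),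
      s.b = Nat.shiftLeft B (Nat.add dx (Nat.mul 32 dy)) ∧
      s.w = Nat.shiftLeft W (Nat.add dx (Nat.mul 32 dy)) ∧ V2 off s K' G ∧
      Sub (xZone K' G) (Nat.shiftLeft K (Nat.add dx (Nat.mul 32 dy))) ∧
      Sub (gC G) (Nat.shiftLeft C1 (Nat.add dx (Nat.mul 32 dy))) := by
  have h' : (((Nat.ble dx mx && Nat.ble dy my) && xBox B W K C1 mx my) &&
      RX.rec (motive := fun _ => Bool) false
        (fun _ K' G =>
          Bool.and
            (xSub (Nat.lor (Nat.xor K' XNIM) (xCells (Nat.land (Nat.shiftRight G 4228) XM)))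
              (Nat.shiftLeft K (Nat.add dx (Nat.mul 32 dy))))
            (xSub (Nat.land (Nat.shiftRight G 132) XM)
              (Nat.shiftLeft C1 (Nat.add dx (Nat.mul 32 dy)))))
        (evB (Nat.mod N 16) (Nat.shiftRight N 8) XNIM XVA 0 fun N1 F1 A1 Z1 =>
          evW (Nat.mod (Nat.shiftRight N 4) 16) N1 F1 A1 Z1 fun N2 F2 A2 Z2 =>
            Bool.rec (motive := fun _ => RX) RX.bad
              (evX fuel N2 (Nat.lor XHI (Nat.xor F1 XNIM)) F2 A2 F2 0)
              (Bool.and (Nat.beq Z2 0) (Bool.and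
                (Nat.beq (Nat.xor F1 XNIM) (Nat.shiftLeft B (Nat.add dx (Nat.mul 32 dy))))
                (Nat.beq (Nat.xor F2 F1)
                  (Nat.shiftLeft W (Nat.add dx (Nat.mul 32 dy)))))))) = true := h
  rw [Bool.and_eq_true, Bool.and_eq_true, Bool.and_eq_true] at h'
  obtain ⟨⟨⟨h1, h2⟩, h3⟩, h4⟩ := h'
  refine ⟨Nat.le_of_ble_eq_true h1, Nat.le_of_ble_eq_true h2, h3, ?_⟩
  obtain ⟨N', K', G, hev, hfin⟩ := rec_false h4
  have hfin' : (xSub (Nat.lor (Nat.xor K' XNIM) (xCells (Nat.land (Nat.shiftRight G 4228) XM)))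
      (Nat.shiftLeft K (Nat.add dx (Nat.mul 32 dy))) &&
      xSub (Nat.land (Nat.shiftRight G 132) XM)
      (Nat.shiftLeft C1 (Nat.add dx (Nat.mul 32 dy)))) = true := hfin
  rw [Bool.and_eq_true] at hfin'
  obtain ⟨hK, hC⟩ := hfin'
  obtain ⟨N1, F1, A1, Z1, hev1, hB⟩ := evB_spec _ hev
  obtain ⟨N2, F2, A2, Z2, hev2, hW⟩ := evW_spec _ hev1
  obtain ⟨hc, hev3⟩ := rec_bad hev2
  have hc' : (Nat.beq Z2 0 && (Nat.beq (Nat.xor F1 XNIM)
      (Nat.shiftLeft B (Nat.add dx (Nat.mul 32 dy))) &&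
      Nat.beq (Nat.xor F2 F1) (Nat.shiftLeft W (Nat.add dx (Nat.mul 32 dy))))) = true := hc
  rw [Bool.and_eq_true, Bool.and_eq_true] at hc'
  obtain ⟨hZ, hb, hw⟩ := hc'
  obtain ⟨hZ1, hW⟩ := hW (eq_of_beq hZ)
  obtain ⟨-, hB⟩ := hB hZ1
  intro off
  obtain ⟨s1, hR1, hw1, -⟩ := hB off St.empty Rep.start
  have hw1' : s1.w = 0 := hw1
  obtain ⟨s2, hR2, hb2, -⟩ := hW off s1 _ hR1
  have e1 : s1.b = Nat.xor F1 XNIM := hR1.black hw1'
  have e2 : s2.w = Nat.xor F2 F1 := hR1.white hR2 hw1' hb2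
  rw [← e1] at hev3
  obtain ⟨-, -, -, hV⟩ := evX_sound _ _ _ _ _ _ _ _ _ _ s2 hR2 hev3
  refine ⟨s2, K', G, ?_, ?_, hV, xSub_sub hK, xSub_sub hC⟩
  · rw [hb2, e1]; exact eq_of_beq hb
  · rw [e2]; exact eq_of_beq hw

theorem itemValid2_of_chkX {fuel B W K C1 mx my dx dy N : ℕ}
    (h : chkX fuel B W K C1 mx my dx dy N = true) :
    ItemValid2 ⟨B, W, K, C1, 0, 2, mx, my⟩ := by
  obtain ⟨hdx, hdy, hbox, hall⟩ := chkX_spec h
  have hbox := xBox_spec hbox
  refine ⟨by norm_num, by norm_num, fun off dx' dy' hdx' hdy' => ?_⟩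
  have e1 := data_norm hbox (by norm_num) (by norm_num) (off := off) hdx' hdy'
  have e2 := data_norm hbox (by norm_num) (by norm_num)
    (off := (off.1 + dx' - dx, off.2 + dy' - dy)) hdx hdy
  have e3 : ((off.1 + dx' - dx : ℤ) + dx, (off.2 + dy' - dy : ℤ) + dy) =
      (off.1 + dx', off.2 + dy') := by
    ext <;> simp
  simp only at e2
  rw [e3] at e2
  rw [e1, ← e2]
  obtain ⟨s, K', G, hb, hw, hV, hK, hC⟩ := hall (off.1 + dx' - dx, off.2 + dy' - dy)
  have hV2 := validV2_mono hK hC hV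
  unfold dataV at hV2
  unfold Item.data capG Item.inst
  simp only
  rw [if_neg (by norm_num), ← hb, ← hw]
  apply hV2.weaken (Finset.Subset.refl _)
  intro L _ _
  refine (min_le_left _ _).trans ?_
  unfold capV
  rw [if_pos rfl]
  by_cases d1 : InMask (off.1 + dx' - dx, off.2 + dy' - dy)
      (Nat.shiftLeft C1 (Nat.add dx (Nat.mul 32 dy))) L
  · rw [capOf_le_of_c1 d1, capOf_le_of_c1 d1]
  · refine capOf_le_g2.trans ?_
    unfold capOf
    rw [if_neg d1]
    split_ifs <;> omega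

theorem XTb.get_node (l r : XTb) (i : ℕ) : (XTb.node l r).get i =
    cond (Nat.beq (Nat.mod i 2) 0) (l.get (Nat.shiftRight i 1)) (r.get (Nat.shiftRight i 1)) := by
  show Bool.rec (motive := fun _ => Item) (r.get (Nat.shiftRight i 1)) (l.get (Nat.shiftRight i 1))
    (Nat.beq (Nat.mod i 2) 0) = _
  cases Nat.beq (Nat.mod i 2) 0 <;> rfl

theorem XTb.valid {fuel : ℕ} {t : XTb} (h : t.all fuel = true) : ∀ i, ItemValid2 (t.get i) := by
  induction t with
  | leaf B W K C1 mx my dx dy N =>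
    intro i
    exact itemValid2_of_chkX h
  | node l r ihl ihr =>
    rw [XTb.all_node, Bool.and_eq_true] at h
    intro i
    rw [XTb.get_node]
    cases Nat.beq (Nat.mod i 2) 0
    · exact ihr h.2 _
    · exact ihl h.1 _

theorem getXC_valid {t : XTb} {c : CTb} (ht : ∀ i, ItemValid2 (t.get i)) (hc : c.Good2) :
    ∀ i, ItemValid2 (getXC t c i) := by
  intro i
  unfold getXC
  cases Nat.beq (Nat.mod i 2) 0
  · exact hc _
  · exact ht _

/-- the tables with items of level 1 may refer to both tables -/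
theorem good2_of_XC {t : XTb} {c c' : CTb} (ht : ∀ i, ItemValid2 (t.get i)) (hc : c.Good2)
    (fuel : ℕ) (h : c'.all2 (getXC t c) fuel = true) : c'.Good2 :=
  CTb.valid2 (getXC_valid ht hc) h

end Pool.Agent.Gomoku
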