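import Pool.Agent.Helper47.Gom4.YSpec

set_option autoImplicit false

namespace Pool.Agent.Gomoku

open Finset

/-! # Items from the stream -/

theorem capOf_two (off : Cell) (C1 C2 C2' : ℕ) (L : Finset Cell) :
    capOf off C1 C2 2 L = capOf off C1 C2' 2 L := by
  unfold capOf
  split_ifs <;> rfl

theorem item_valid3_inst {it : Item} (h : ItemValid3 it) (hg : it.g = 2) (off : Cell)
    {dx dy : ℕ} (hx : dx ≤ it.mx) (hy : dy ≤ it.my) :
    Valid3 ⟨dec off (Nat.shiftLeft it.B (Nat.add dx (Nat.mul 32 dy))),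
      dec off (Nat.shiftLeft it.W (Nat.add dx (Nat.mul 32 dy))),
      dec off (Nat.shiftLeft it.K (Nat.add dx (Nat.mul 32 dy))),
      capV off true (Nat.shiftLeft it.C1 (Nat.add dx (Nat.mul 32 dy)))⟩ := by
  have h1 := h.2.2 off dx dy hx hy
  unfold Item.data capG Item.inst at h1
  simp only at h1
  rw [hg, if_neg (by norm_num)] at h1
  apply h1.weaken (Finset.Subset.refl _)
  intro L _ _
  refine (min_le_left _ _).trans ?_
  unfold capV
  rw [if_pos rfl]
  exact (capOf_two off _ _ _ L).le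

theorem rec_bad_ok {x : RX} {f : ℕ → ℕ → ℕ → RX} {N' K' G' : ℕ}
    (h : RX.rec (motive := fun _ => RX) RX.bad f x = RX.ok N' K' G') :
    ∃ N3 K3 G3, x = RX.ok N3 K3 G3 ∧ f N3 K3 G3 = RX.ok N' K' G' := by
  cases x with
  | bad => exact absurd h (by simp)
  | ok N K G => exact ⟨N, K, G, rfl, h⟩

theorem yGet_spec {gt : ℕ → Item} (hgt : GoodX gt) {fx N N' K' G' : ℕ}
    {k : ℕ → ℕ → ℕ → ℕ → ℕ → RX} (h : yGet gt fx N k = RX.ok N' K' G') :
    ∃ N1 B W K C1, k N1 B W K C1 = RX.ok N' K' G' ∧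
      ∀ off, Valid3 ⟨dec off B, dec off W, dec off K, capV off true C1⟩ := by
  unfold yGet at h
  cases hb : Nat.beq (Nat.mod N 2) 0
  · rw [hb] at h
    have h' : evB (Nat.mod (Nat.shiftRight N 1) 16) (Nat.shiftRight N 9) XNIM XVA 0
        (fun N1 F1 A1 Z1 =>
      evW (Nat.mod (Nat.shiftRight N 5) 16) N1 F1 A1 Z1 fun N2 F2 A2 Z2 =>
        Bool.rec (motive := fun _ => RX) RX.bad
          (RX.rec (motive := fun _ => RX) RX.bad
            (fun N3 K' G => k N3 (Nat.xor F1 XNIM) (Nat.xor F2 F1)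
              (Nat.lor (Nat.xor K' XNIM) (xCells (Nat.land (Nat.shiftRight G 4228) XM)))
              (Nat.land (Nat.shiftRight G 132) XM))
            (evX fx N2 (Nat.lor XHI (Nat.xor F1 XNIM)) F2 A2 F2 0))
          (Nat.beq Z2 0)) = RX.ok N' K' G' := h
    obtain ⟨N1, F1, A1, Z1, hev1, hB⟩ := evB_spec _ h'
    obtain ⟨N2, F2, A2, Z2, hev2, hW⟩ := evW_spec _ hev1
    obtain ⟨hZ, hev3⟩ := rec_bad hev2
    obtain ⟨N3, K3, G3, hev4, hk⟩ := rec_bad_ok hev3
    obtain ⟨hZ1, hW⟩ := hW (eq_of_beq hZ)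
    obtain ⟨-, hB⟩ := hB hZ1
    refine ⟨_, _, _, _, _, hk, fun off => ?_⟩
    obtain ⟨s1, hR1, hw1, -⟩ := hB off St.empty Rep.start
    have hw1' : s1.w = 0 := hw1
    obtain ⟨s2, hR2, hb2, -⟩ := hW off s1 _ hR1
    have e1 : s1.b = Nat.xor F1 XNIM := hR1.black hw1'
    have e2 : s2.w = Nat.xor F2 F1 := hR1.white hR2 hw1' hb2
    rw [← e1] at hev4
    obtain ⟨-, -, -, hV⟩ := evX_sound3 _ _ _ _ _ _ _ _ _ _ s2 hR2 hev4
    rw [← e1, ← e2, ← hb2]
    exact hV
  · rw [hb] at h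
    obtain ⟨hv, hg⟩ := hgt (Nat.mod (Nat.shiftRight N 1) 1048576)
    generalize gt (Nat.mod (Nat.shiftRight N 1) 1048576) = it at h hv hg
    obtain ⟨B, W, K, C1, C2, g, mx, my⟩ := it
    obtain ⟨hc, hk⟩ := rec_bad h
    have hc' : (Nat.ble (Nat.mod (Nat.shiftRight N 21) 32) mx &&
      Nat.ble (Nat.mod (Nat.shiftRight N 26) 32) my) = true := hc
    rw [Bool.and_eq_true] at hc'
    refine ⟨_, _, _, _, _, hk, fun off => ?_⟩
    exact item_valid3_inst hv hg off (Nat.le_of_ble_eq_true hc'.1) (Nat.le_of_ble_eq_true hc'.2)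

/-- the tables are good -/
theorem goodX_of_all {fuel : ℕ} {t : XTb} (h : t.all fuel = true) : GoodX t.get := by
  intro i
  refine ⟨XTb.valid3 h i, ?_⟩
  clear h
  induction t generalizing i with
  | leaf B W K C1 mx my dx dy N => rfl
  | node l r ihl ihr =>
    rw [XTb.get_node]
    cases Nat.beq (Nat.mod i 2) 0
    · exact ihr _
    · exact ihl _

end Pool.Agent.Gomoku
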